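import Pool.Agent.H.MP_d7db32_ag.Eq.U.Bs
import Pool.Agent.H.MP_d7db32_ag.Eq.T.Mcn

/-!
# MP_d7db32_ag, Eq/U/Mv: the form at a matching and a loop with variables

`mv`: let `s` be a square root of `x (inr ())` (`Complex.cpow`, or `IsAlgClosed.exists_pow_nat_eq`), `t (lf i) = x (inl i)`, `t (rt i) = 1`, `t (ls k) = s`, all not zero. `tor t (mcM π) = ∑ e, x e • mvE π e`
(`tor_single`, linearity), so by `Fv_tor` the value is `(∏ t) ^ 2 * Fv (mcM π) = (∏ i, x (inl i)) ^ 2 * x (inr ()) * Fv (mcM π)`, and `Fv (mcM π) ≠ 0` (`mc_ne`).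
-/

set_option autoImplicit false

namespace PadDet.Eq

open Matrix

/-- The matrices of the edges of the matching and of the loop. -/
noncomputable def mvE {k : ℕ} (π : Equiv.Perm (Fin k)) :
    Fin k ⊕ Unit → Matrix (Fin (2 * k + 1)) (Fin (2 * k + 1)) ℂ
  | Sum.inl i => Matrix.single (lf i) (rt (π i)) 1 - Matrix.single (rt (π i)) (lf i) 1
  | Sum.inr _ => Matrix.single (ls k) (ls k) 1

/-- The exponents. -/
def mvd {k : ℕ} : Fin k ⊕ Unit → ℕ
  | Sum.inl _ => 2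
  | Sum.inr _ => 1

private theorem Mv_prod {k : ℕ} (t : Fin (2 * k + 1) → ℂ) :
    ∏ v, t v = (∏ i : Fin k, t (lf i)) * (∏ i : Fin k, t (rt i)) * t (ls k) := by
  rw [Fin.prod_univ_castSucc]
  have h : k + k = 2 * k := (two_mul k).symm
  rw [← Fin.prod_congr' (fun v : Fin (2 * k) => t v.castSucc) h, Fin.prod_univ_add]
  rfl

private theorem Mv_exists {k : ℕ} (y : Fin k → ℂ) (hy : ∀ i, y i ≠ 0) {s : ℂ} (hs : s ≠ 0) :
    ∃ t : Fin (2 * k + 1) → ℂ, (∀ v, t v ≠ 0) ∧ (∀ i : Fin k, t (lf i) = y i) ∧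
      (∀ i : Fin k, t (rt i) = 1) ∧ t (ls k) = s := by
  refine ⟨fun v => if h : v.val < k then y ⟨v.val, h⟩ else if v.val < 2 * k then 1 else s,
    fun v => ?_, fun i => ?_, fun i => ?_, ?_⟩
  · show (if h : v.val < k then y ⟨v.val, h⟩ else if v.val < 2 * k then 1 else s) ≠ 0
    by_cases h : v.val < k
    · rw [dif_pos h]
      exact hy _
    · rw [dif_neg h]
      by_cases h' : v.val < 2 * k
      · rw [if_pos h']
        exact one_ne_zero
      · rw [if_neg h']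
        exact hs
  · have h : (lf i : Fin (2 * k + 1)).val < k := i.isLt
    exact dif_pos h
  · have h1 : (rt i : Fin (2 * k + 1)).val = k + i.val := rfl
    have h2 := i.isLt
    have h : ¬ (rt i : Fin (2 * k + 1)).val < k := by
      rw [h1]
      omega
    have h' : (rt i : Fin (2 * k + 1)).val < 2 * k := by
      rw [h1]
      omega
    exact (dif_neg h).trans (if_pos h')
  · have h1 : (ls k : Fin (2 * k + 1)).val = 2 * k := rfl
    have h : ¬ (ls k : Fin (2 * k + 1)).val < k := by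
      rw [h1]
      omega
    have h' : ¬ (ls k : Fin (2 * k + 1)).val < 2 * k := by
      rw [h1]
      omega
    exact (dif_neg h).trans (if_neg h')

private theorem Mv_add {n : ℕ} (t : Fin n → ℂ) (X Y : Matrix (Fin n) (Fin n) ℂ) :
    tor t (X + Y) = tor t X + tor t Y := by
  ext a b
  show t a * t b * (X a b + Y a b) = t a * t b * X a b + t a * t b * Y a b
  rw [mul_add]

private theorem Mv_sub {n : ℕ} (t : Fin n → ℂ) (X Y : Matrix (Fin n) (Fin n) ℂ) :
    tor t (X - Y) = tor t X - tor t Y := by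
  ext a b
  show t a * t b * (X a b - Y a b) = t a * t b * X a b - t a * t b * Y a b
  rw [mul_sub]

private theorem Mv_sum {n k : ℕ} (t : Fin n → ℂ) (X : Fin k → Matrix (Fin n) (Fin n) ℂ) :
    tor t (∑ i, X i) = ∑ i, tor t (X i) := by
  ext a b
  show t a * t b * (∑ i, X i) a b = (∑ i, tor t (X i)) a b
  rw [Matrix.sum_apply, Matrix.sum_apply, Finset.mul_sum]
  rfl

private theorem Mv_tor {k : ℕ} (π : Equiv.Perm (Fin k)) (x : Fin k ⊕ Unit → ℂ) {s : ℂ}
    (hs : s ^ 2 = x (Sum.inr ())) {t : Fin (2 * k + 1) → ℂ}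
    (tl : ∀ i : Fin k, t (lf i) = x (Sum.inl i)) (tr : ∀ i : Fin k, t (rt i) = 1)
    (ts : t (ls k) = s) : ∑ e, x e • mvE π e = tor t (mcM π) := by
  unfold mcM
  rw [Mv_add, Mv_sum, Fintype.sum_sum_type, tor_single, ts, ← pow_two, hs]
  congr 1
  · refine Finset.sum_congr rfl fun i _ => ?_
    rw [Mv_sub, tor_single, tor_single, tl, tr, mul_one, one_mul, ← smul_sub]
    rfl
  · exact Fintype.sum_unique _

theorem mv {k : ℕ} (π : Equiv.Perm (Fin k)) : ∃ C₀ : ℂ, C₀ ≠ 0 ∧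
    ∀ x : Fin k ⊕ Unit → ℂ, (∀ e, x e ≠ 0) →
      Fv (∑ e, x e • mvE π e) = C₀ * ∏ e, x e ^ mvd e := by
  refine ⟨Fv (mcM π), mc_ne π, fun x hx => ?_⟩
  obtain ⟨s, hs⟩ := IsAlgClosed.exists_pow_nat_eq (x (Sum.inr ())) (n := 2) two_pos
  have hs0 : s ≠ 0 := by
    intro h
    rw [h, zero_pow two_ne_zero] at hs
    exact hx _ hs.symm
  obtain ⟨t, ht, tl, tr, ts⟩ := Mv_exists (fun i => x (Sum.inl i)) (fun i => hx _) hs0
  have h1 : ∏ i : Fin k, t (lf i) = ∏ i, x (Sum.inl i) := Finset.prod_congr rfl fun i _ => tl i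
  have h2 : ∏ i : Fin k, t (rt i) = 1 := Finset.prod_eq_one fun i _ => tr i
  have h3 : ∏ e, x e ^ mvd e = (∏ i, x (Sum.inl i)) ^ 2 * x (Sum.inr ()) := by
    rw [Fintype.prod_sum_type, ← Finset.prod_pow]
    congr 1
    show ∏ u : Unit, x (Sum.inr u) ^ 1 = x (Sum.inr ())
    rw [Fintype.prod_unique, pow_one]
  rw [Mv_tor π x hs tl tr ts, Fv_tor ht, Mv_prod, h1, h2, ts, h3, ← hs]
  ring

end PadDet.Eq
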