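import Mathlib

/-!
# MP_d7db32_ag, Eq/U/Tr: a trail in a balanced graph

The arrows are `a ∈ A`, from `β a` to `α a = g a * β a`. `hbal`: the number of arrows out of `ω` plus `[ω = y]` is the number of arrows into `ω` plus `[ω = x]`.
Call `(U, v)`, `U ⊆ A`, a state if `v = x * ∏ a ∈ U, g a` and for all `ω` the number of the `a ∈ U` with `β a = ω` plus `[ω = v]` is the number of the `a ∈ U` with `α a = ω` plus `[ω = x]`. `(∅, x)` is a state.
If `(U, v)` is a state and `v ≠ y` then there is `a ∈ A`, `a ∉ U`, with `β a = v`: the number of `a ∈ U` with `β a = v` plus one is `#(U, α = v) + [v = x] ≤ #(A, α = v) + [v = x] = #(A, β = v)` (`hbal`, `v ≠ y`).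
Then `(insert a U, α a)` is a state. Take a state `(U, v)` with `Q U` and `card U` maximal (`(∅, x)` has `Q`). `v ≠ y` by `hQ`, so there is `a` as above, and `Q (insert a U)` is false because `card U` is maximal.
-/

set_option autoImplicit false

namespace PadDet.Eq

theorem tru {m : ℕ} {A : Finset (Fin m)} {β α g : Fin m → ℂ} {x y : ℂ}
    (hg : ∀ a ∈ A, α a = g a * β a)
    (hbal : ∀ ω : ℂ, (A.filter fun a => β a = ω).card + (if ω = y then 1 else 0) =
      (A.filter fun a => α a = ω).card + (if ω = x then 1 else 0))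
    (Q : Finset (Fin m) → Prop) (h0 : Q ∅)
    (hQ : ∀ U ⊆ A, Q U → y ≠ x * ∏ a ∈ U, g a) :
    ∃ U ⊆ A, ∃ a ∈ A, a ∉ U ∧ Q U ∧ ¬ Q (insert a U) ∧ β a = x * ∏ a ∈ U, g a := by
  classical
  obtain ⟨P, hP⟩ : ∃ P : Finset (Fin m) → Prop, ∀ U, P U ↔ Q U ∧ ∀ ω : ℂ,
      (U.filter fun a => β a = ω).card + (if ω = x * ∏ a ∈ U, g a then 1 else 0) =
      (U.filter fun a => α a = ω).card + (if ω = x then 1 else 0) := ⟨_, fun _ => Iff.rfl⟩
  have hne : (A.powerset.filter P).Nonempty := by
    refine ⟨∅, Finset.mem_filter.2 ⟨Finset.empty_mem_powerset A, (hP ∅).2 ⟨h0, fun ω => ?_⟩⟩⟩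
    rw [Finset.prod_empty, mul_one, Finset.filter_empty, Finset.filter_empty]
  obtain ⟨U, hU, hmax⟩ := Finset.exists_max_image _ Finset.card hne
  obtain ⟨hUA, hPU⟩ := Finset.mem_filter.1 hU
  rw [Finset.mem_powerset] at hUA
  obtain ⟨hQU, hst⟩ := (hP U).1 hPU
  have hv : y ≠ x * ∏ a ∈ U, g a := hQ U hUA hQU
  obtain ⟨v, hveq⟩ : ∃ v, v = x * ∏ a ∈ U, g a := ⟨_, rfl⟩
  rw [← hveq] at hv
  have hex : ∃ a ∈ A, a ∉ U ∧ β a = v := by
    by_contra hno
    push Not at hno
    have h1 : (A.filter fun a => β a = v).card ≤ (U.filter fun a => β a = v).card := by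
      refine Finset.card_le_card fun a ha => ?_
      obtain ⟨ha1, ha2⟩ := Finset.mem_filter.1 ha
      refine Finset.mem_filter.2 ⟨?_, ha2⟩
      by_contra haU
      exact hno a ha1 haU ha2
    have h2 : (U.filter fun a => α a = v).card ≤ (A.filter fun a => α a = v).card :=
      Finset.card_le_card (Finset.filter_subset_filter _ hUA)
    have h3 := hst v
    have h4 := hbal v
    rw [if_pos hveq] at h3
    rw [if_neg hv.symm] at h4
    omega
  obtain ⟨a, haA, haU, hav⟩ := hex
  refine ⟨U, hUA, a, haA, haU, hQU, fun hQ' => ?_, by rw [hav, hveq]⟩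
  have hins : P (insert a U) := by
    refine (hP _).2 ⟨hQ', fun ω => ?_⟩
    have e : x * ∏ b ∈ insert a U, g b = α a := by
      rw [Finset.prod_insert haU, hg a haA, hav, hveq]
      ring
    have h3 := hst ω
    rw [← hveq, ← hav] at h3
    rw [e, Finset.card_filter, Finset.card_filter, Finset.sum_insert haU,
      Finset.sum_insert haU, ← Finset.card_filter, ← Finset.card_filter]
    have e1 : (if ω = β a then 1 else 0) = (if β a = ω then 1 else 0 : ℕ) := by
      simp only [eq_comm]
    have e2 : (if ω = α a then 1 else 0) = (if α a = ω then 1 else 0 : ℕ) := by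
      simp only [eq_comm]
    rw [e1] at h3
    rw [e2]
    omega
  have h5 := hmax _ (Finset.mem_filter.2 ⟨Finset.mem_powerset.2
    (Finset.insert_subset haA hUA), hins⟩)
  rw [Finset.card_insert_of_notMem haU] at h5
  omega

end PadDet.Eq
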