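import Pool.Agent.H.MP_d7db32_ag.Eq.U.Bs

/-!
# MP_d7db32_ag, Eq/U/Wt: products along a matching

Define the exponents `w : Fin (2 k + 1) → ℤ` of `wtp h t π f ε`: `w (lf (cl h i)) = f i`, `w (rt (cl h v)) = f (π.symm v)`, `w (ls k) = 2 ε`, `0` at the other vertices, so `wtp h t π f ε = ∏ v, t v ^ w v`
(split the product over `Fin (2 k + 1)` in the `lf i`, the `rt i`, `i : Fin k`, and `ls k`; the factors with `j ≤ i` are `1`; `dst_lf`, `dst_rt`, `cl_or`).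
`wt_two`: all exponents are `2` (for `v ∉ Sj` the entry is `1`). `wt_inj`: `∏ t ^ (w - w') = 1`, `|w - w'| ≤ 2`, zero outside `Sj`, so `w = w'` (`ht.ind`).
-/

set_option autoImplicit false

namespace PadDet.Eq

variable {j k : ℕ}

/-- The product of the weights. -/
noncomputable def wtp (h : j ≤ k) (t : Fin (2 * k + 1) → ℂ) (π : Equiv.Perm (Fin j))
    (f : Fin j → ℕ) (ε : ℕ) : ℂ :=
  (∏ i, (t (lf (cl h i)) * t (rt (cl h (π i)))) ^ f i) * t (ls k) ^ (2 * ε)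

private theorem Wt_split (g : Fin (2 * k + 1) → ℂ) :
    ∏ v, g v = (∏ i : Fin k, g (lf i)) * (∏ i : Fin k, g (rt i)) * g (ls k) := by
  have e : 2 * k + 1 = k + k + 1 := by omega
  rw [← (finCongr e).symm.prod_comp g, Fin.prod_univ_castSucc, Fin.prod_univ_add]
  have h1 : ∀ i : Fin k, (finCongr e).symm (Fin.castSucc (Fin.castAdd k i)) = lf i :=
    fun i => Fin.ext rfl
  have h2 : ∀ i : Fin k, (finCongr e).symm (Fin.castSucc (Fin.natAdd k i)) = rt i :=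
    fun i => Fin.ext rfl
  have h3 : (finCongr e).symm (Fin.last (k + k)) = ls k :=
    Fin.ext (show k + k = 2 * k by omega)
  simp only [h1, h2, h3]

private theorem Wt_cl (h : j ≤ k) (G : Fin k → ℂ) (h1 : ∀ i : Fin k, j ≤ i.val → G i = 1) :
    ∏ i, G i = ∏ i : Fin j, G (cl h i) := by
  have h2 : ∏ i : Fin j, G (cl h i) = ∏ x ∈ Finset.univ.map (Fin.castLEEmb h), G x := by
    rw [Finset.prod_map]
    rfl
  rw [h2]
  refine (Finset.prod_subset (Finset.subset_univ _) fun x _ hx => ?_).symm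
  rcases cl_or h x with ⟨i, hi⟩ | h3
  · exact absurd (Finset.mem_map.2 ⟨i, Finset.mem_univ i, hi.symm⟩) hx
  · exact h1 x h3

/-- The exponents. -/
private def Wt_w (_ : j ≤ k) (π : Equiv.Perm (Fin j)) (f : Fin j → ℕ) (ε : ℕ)
    (v : Fin (2 * k + 1)) : ℤ :=
  if h1 : v.val < j then (f ⟨v.val, h1⟩ : ℤ)
  else if h2 : k ≤ v.val ∧ v.val < k + j then (f (π.symm ⟨v.val - k, by omega⟩) : ℤ)
  else if v.val = 2 * k then 2 * ε else 0

private theorem Wt_lf (h : j ≤ k) (π : Equiv.Perm (Fin j)) (f : Fin j → ℕ) (ε : ℕ) (i : Fin j) :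
    Wt_w h π f ε (lf (cl h i)) = f i := by
  have h1 : (lf (cl h i) : Fin (2 * k + 1)).val < j := i.isLt
  unfold Wt_w
  rw [dif_pos h1]
  rfl

private theorem Wt_rt (h : j ≤ k) (π : Equiv.Perm (Fin j)) (f : Fin j → ℕ) (ε : ℕ) (i : Fin j) :
    Wt_w h π f ε (rt (cl h i)) = f (π.symm i) := by
  have h0 : (rt (cl h i) : Fin (2 * k + 1)).val = k + i.val := rfl
  have hi := i.isLt
  have h1 : ¬ (rt (cl h i) : Fin (2 * k + 1)).val < j := by omega
  have h2 : k ≤ (rt (cl h i) : Fin (2 * k + 1)).val ∧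
      (rt (cl h i) : Fin (2 * k + 1)).val < k + j := by omega
  unfold Wt_w
  rw [dif_neg h1, dif_pos h2]
  congr 3
  exact Fin.ext (by change (rt (cl h i) : Fin (2 * k + 1)).val - k = i.val; omega)

private theorem Wt_ls (h : j ≤ k) (π : Equiv.Perm (Fin j)) (f : Fin j → ℕ) (ε : ℕ) :
    Wt_w h π f ε (ls k) = 2 * ε := by
  have h0 : (ls k : Fin (2 * k + 1)).val = 2 * k := rfl
  unfold Wt_w
  rw [dif_neg (by omega), dif_neg (by omega), if_pos h0]

private theorem Wt_out (h : j ≤ k) (π : Equiv.Perm (Fin j)) (f : Fin j → ℕ) (ε : ℕ)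
    {v : Fin (2 * k + 1)} (hv : v ∉ Sj j k) : Wt_w h π f ε v = 0 := by
  have h0 : ¬ (v.val < j ∨ (k ≤ v.val ∧ v.val < k + j) ∨ v.val = 2 * k) :=
    fun h1 => hv (Finset.mem_filter.2 ⟨Finset.mem_univ v, h1⟩)
  unfold Wt_w
  rw [dif_neg (by omega), dif_neg (by omega), if_neg (by omega)]

private theorem Wt_bd (h : j ≤ k) (π : Equiv.Perm (Fin j)) {f : Fin j → ℕ} {ε : ℕ}
    (hf : ∀ i, f i ≤ 2) (hε : ε ≤ 1) (v : Fin (2 * k + 1)) :
    0 ≤ Wt_w h π f ε v ∧ Wt_w h π f ε v ≤ 2 := by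
  unfold Wt_w
  split_ifs with h1 h2 h3
  · have := hf ⟨v.val, h1⟩
    omega
  · have := hf (π.symm ⟨v.val - k, by omega⟩)
    omega
  · omega
  · omega

private theorem Wt_prod (h : j ≤ k) {t : Fin (2 * k + 1) → ℂ} (ht : Dst (Sj j k) t)
    (π : Equiv.Perm (Fin j)) (f : Fin j → ℕ) (ε : ℕ) :
    wtp h t π f ε = ∏ v, t v ^ Wt_w h π f ε v := by
  rw [Wt_split, Wt_cl h (fun i => t (lf i) ^ Wt_w h π f ε (lf i))
    (fun i hi => by rw [dst_lf ht hi, one_zpow]),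
    Wt_cl h (fun i => t (rt i) ^ Wt_w h π f ε (rt i))
    (fun i hi => by rw [dst_rt ht hi, one_zpow])]
  simp only [Wt_lf, Wt_rt, Wt_ls]
  unfold wtp
  have h1 : ∏ i : Fin j, t (rt (cl h i)) ^ (f (π.symm i) : ℤ) =
      ∏ i : Fin j, t (rt (cl h (π i))) ^ (f i : ℤ) := by
    rw [← Equiv.prod_comp π]
    simp only [Equiv.symm_apply_apply]
  have h2 : (2 * (ε : ℤ)) = ((2 * ε : ℕ) : ℤ) := by push_cast; ring
  rw [h1, ← Finset.prod_mul_distrib, h2, zpow_natCast]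
  congr 1
  refine Finset.prod_congr rfl fun i _ => ?_
  rw [zpow_natCast, zpow_natCast, mul_pow]

theorem wt_two (h : j ≤ k) {t : Fin (2 * k + 1) → ℂ} (ht : Dst (Sj j k) t)
    (π : Equiv.Perm (Fin j)) : wtp h t π (fun _ => 2) 1 = (∏ i, t i) ^ 2 := by
  rw [Wt_split t, Wt_cl h (fun i => t (lf i)) (fun i hi => dst_lf ht hi),
    Wt_cl h (fun i => t (rt i)) (fun i hi => dst_rt ht hi)]
  unfold wtp
  have h1 : ∏ i : Fin j, t (rt (cl h i)) = ∏ i : Fin j, t (rt (cl h (π i))) :=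
    (Equiv.prod_comp π fun i => t (rt (cl h i))).symm
  rw [h1, Finset.prod_pow, Finset.prod_mul_distrib]
  ring

theorem wt_inj (h : j ≤ k) {t : Fin (2 * k + 1) → ℂ} (ht : Dst (Sj j k) t)
    {π π' : Equiv.Perm (Fin j)} {f f' : Fin j → ℕ} {ε ε' : ℕ} (hf : ∀ i, f i ≤ 2)
    (hf' : ∀ i, f' i ≤ 2) (hε : ε ≤ 1) (hε' : ε' ≤ 1)
    (he : wtp h t π f ε = wtp h t π' f' ε') :
    f = f' ∧ (∀ v, f (π.symm v) = f' (π'.symm v)) ∧ ε = ε' := by
  rw [Wt_prod h ht, Wt_prod h ht] at he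
  have h1 : ∏ v, t v ^ (Wt_w h π f ε v - Wt_w h π' f' ε' v) = 1 := by
    have h2 : ∏ v, t v ^ (Wt_w h π f ε v - Wt_w h π' f' ε' v) =
        (∏ v, t v ^ Wt_w h π f ε v) / ∏ v, t v ^ Wt_w h π' f' ε' v := by
      rw [← Finset.prod_div_distrib]
      exact Finset.prod_congr rfl fun v _ => zpow_sub₀ (ht.ne v) _ _
    rw [h2, he]
    exact div_self (Finset.prod_ne_zero_iff.2 fun v _ => zpow_ne_zero _ (ht.ne v))
  have h3 := ht.ind (fun v => Wt_w h π f ε v - Wt_w h π' f' ε' v)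
    (fun v hv => by rw [Wt_out h π f ε hv, Wt_out h π' f' ε' hv, sub_self])
    (fun v => by
      have h4 := Wt_bd h π hf hε v
      have h5 := Wt_bd h π' hf' hε' v
      exact abs_le.2 (by omega)) h1
  have h6 : ∀ v, Wt_w h π f ε v = Wt_w h π' f' ε' v := fun v => sub_eq_zero.1 (congrFun h3 v)
  refine ⟨funext fun i => ?_, fun v => ?_, ?_⟩
  · have h7 := h6 (lf (cl h i))
    rw [Wt_lf, Wt_lf] at h7
    exact_mod_cast h7
  · have h7 := h6 (rt (cl h v))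
    rw [Wt_rt, Wt_rt] at h7
    exact_mod_cast h7
  · have h7 := h6 (ls k)
    rw [Wt_ls, Wt_ls] at h7
    omega

end PadDet.Eq
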