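import Pool.Agent.H.MP_d7db32_ag.Eq.U.Tm
import Pool.Agent.H.MP_d7db32_ag.Eq.U.Mv
import Pool.Agent.H.MP_d7db32_ag.Eq.U.Tr
import Pool.Agent.H.MP_d7db32_ag.Eq.U.Wt

/-!
# MP_d7db32_ag, Eq/U/Ch: a column whose weight has a given number of zeros

`P e = M (mvE (xt h π) e)`: `det (L + ∑ e, x e • P e) = c * Fv (∑ e, x e • mvE _ e) = c C₀ ∏ e, x e ^ mvd e` (`mv`), so `trm` gives `τ` and `χ : Fin m → Option (Fin k ⊕ Unit)`.
`A` is the set of the columns `a` with `χ a = some (inl (cl h i))` for some `i : Fin j`, or `χ a = some (inr ())`; `g a = t (lf (cl h i)) * t (rt (cl h (π i)))`, or `g a = t (ls k) ^ 2`. For `a ∈ A`: `α (τ a) = g a * β a` (`gE`, one of the two entries of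
the difference is not zero, `xt_cl`). For `a ∉ A`: `α (τ a) = β a` (`gL`; or `χ a = some (inl i)` with `j ≤ i`, `xt_ge`, `dst_lf`, `dst_rt`). So `hbal` gives the balance for `A` with the heads `fun a => α (τ a)` (the number of the `b` with `α b = ω` is
the number of the `a` with `α (τ a) = ω`; the columns `a ∉ A` contribute the same on both sides).
For `U ⊆ A`: `f_U i = card {a ∈ U | χ a = some (inl (cl h i))} ≤ 2`, `ε_U = card {a ∈ U | χ a = some (inr ())} ≤ 1` and `∏ a ∈ U, g a = wtp h t π f_U ε_U` (`Finset.prod_fiberwise`).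
`tru` with `Q U := z ≤ card {i : Fin j | f_U i = 0}` (and `α := fun a => α (τ a)`): `Q ∅` because `z ≤ j`; if `Q U` and `y = x * ∏ g` then `wtp .. (fun _ => 2) 1 = wtp .. f_U ε_U` (`wt_two`, `hy`, `x ≠ 0`), so `f_U = 2` (`wt_inj`) and there are no zeros, against `1 ≤ z`.
The result: `U`, `a` with `β a = x * wtp h t π f_U ε_U`, `z ≤ zeros (f_U)`, `zeros (f_{insert a U}) < z`, and `f_{insert a U}` differs from `f_U` at one place at most, so `zeros (f_U) = z`.
-/

set_option autoImplicit false

namespace PadDet.Eq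

open Matrix

/-- The factor of a column. -/
private noncomputable def Ch_g {j k : ℕ} (h : j ≤ k) (t : Fin (2 * k + 1) → ℂ)
    (π : Equiv.Perm (Fin j)) : Option (Fin k ⊕ Unit) → ℂ
  | none => 1
  | some (Sum.inl i) => t (lf i) * t (rt (xt h π i))
  | some (Sum.inr _) => t (ls k) ^ 2

private theorem Ch_prod1 {j k : ℕ} (h : j ≤ k) {t : Fin (2 * k + 1) → ℂ} (ht : Dst (Sj j k) t)
    (π : Equiv.Perm (Fin j)) (o : Option (Fin k ⊕ Unit)) :
    Ch_g h t π o = (∏ i, (t (lf (cl h i)) * t (rt (cl h (π i)))) ^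
      (if o = some (Sum.inl (cl h i)) then 1 else 0)) *
        t (ls k) ^ (2 * (if o = some (Sum.inr ()) then 1 else 0)) := by
  classical
  rcases o with _ | i | u
  · simp [Ch_g]
  · have h1 : ¬ (some (Sum.inl i : Fin k ⊕ Unit) = some (Sum.inr ())) := by simp
    rw [if_neg h1, mul_zero, pow_zero, mul_one]
    show t (lf i) * t (rt (xt h π i)) = _
    rcases cl_or h i with ⟨i', rfl⟩ | hi
    · rw [xt_cl, Finset.prod_eq_single i']
      · rw [if_pos rfl, pow_one]
      · intro b _ hb
        rw [if_neg, pow_zero]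
        intro h2
        exact hb (cl_inj h (Sum.inl_injective (Option.some_injective _ h2))).symm
      · intro h2
        exact absurd (Finset.mem_univ _) h2
    · rw [xt_ge h π hi, dst_lf ht hi, dst_rt ht hi, mul_one]
      symm
      refine Finset.prod_eq_one fun i' _ => ?_
      rw [if_neg, pow_zero]
      intro h2
      have h3 : i = cl h i' := Sum.inl_injective (Option.some_injective _ h2)
      have h4 : i.val = i'.val := congrArg Fin.val h3
      have := i'.isLt
      omega
  · have h1 : (some (Sum.inr u : Fin k ⊕ Unit) = some (Sum.inr ())) := rfl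
    rw [if_pos h1, mul_one]
    show t (ls k) ^ 2 = _
    have h2 : ∏ i, (t (lf (cl h i)) * t (rt (cl h (π i)))) ^
      (if some (Sum.inr u : Fin k ⊕ Unit) = some (Sum.inl (cl h i)) then 1 else 0) = 1 := by
      refine Finset.prod_eq_one fun i' _ => ?_
      rw [if_neg (by simp), pow_zero]
    rw [h2, one_mul]

/-- The numbers of the columns of `U` at the edges. -/
private def Ch_f {j k m : ℕ} (h : j ≤ k) (χ : Fin m → Option (Fin k ⊕ Unit))
    (U : Finset (Fin m)) (i : Fin j) : ℕ :=
  (U.filter fun a => χ a = some (Sum.inl (cl h i))).card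

private def Ch_e {k m : ℕ} (χ : Fin m → Option (Fin k ⊕ Unit)) (U : Finset (Fin m)) : ℕ :=
  (U.filter fun a => χ a = some (Sum.inr ())).card

private theorem Ch_prod {j k m : ℕ} (h : j ≤ k) {t : Fin (2 * k + 1) → ℂ}
    (ht : Dst (Sj j k) t) (π : Equiv.Perm (Fin j)) (χ : Fin m → Option (Fin k ⊕ Unit))
    (U : Finset (Fin m)) :
    ∏ a ∈ U, Ch_g h t π (χ a) = wtp h t π (Ch_f h χ U) (Ch_e χ U) := by
  simp only [Ch_prod1 h ht π]
  rw [Finset.prod_mul_distrib, Finset.prod_comm]
  unfold wtp
  congr 1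
  · refine Finset.prod_congr rfl fun i _ => ?_
    rw [Finset.prod_pow_eq_pow_sum, ← Finset.card_filter]
    rfl
  · rw [Finset.prod_pow_eq_pow_sum, ← Finset.mul_sum, ← Finset.card_filter]
    rfl

private theorem Ch_ins {j k m : ℕ} (h : j ≤ k) (χ : Fin m → Option (Fin k ⊕ Unit))
    (U : Finset (Fin m)) (a : Fin m) :
    (Finset.univ.filter fun i => Ch_f h χ U i = 0).card ≤
      (Finset.univ.filter fun i => Ch_f h χ (insert a U) i = 0).card + 1 := by
  classical
  have h1 : (Finset.univ.filter fun i => Ch_f h χ U i = 0) ⊆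
      (Finset.univ.filter fun i => Ch_f h χ (insert a U) i = 0) ∪
        (Finset.univ.filter fun i : Fin j => χ a = some (Sum.inl (cl h i))) := by
    intro i hi
    rw [Finset.mem_filter] at hi
    rw [Finset.mem_union, Finset.mem_filter, Finset.mem_filter]
    by_cases h2 : χ a = some (Sum.inl (cl h i))
    · exact Or.inr ⟨Finset.mem_univ _, h2⟩
    · refine Or.inl ⟨Finset.mem_univ _, ?_⟩
      unfold Ch_f
      rw [Finset.filter_insert, if_neg h2]
      exact hi.2
  refine (Finset.card_le_card h1).trans ((Finset.card_union_le _ _).trans ?_)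
  refine Nat.add_le_add_left ?_ _
  rw [Finset.card_le_one]
  intro i hi i' hi'
  rw [Finset.mem_filter] at hi hi'
  have h3 := hi.2.symm.trans hi'.2
  exact cl_inj h (Sum.inl_injective (Option.some_injective _ h3))

private theorem Ch_bal {m : ℕ} {β α : Fin m → ℂ} {x y : ℂ}
    (hbal : ∀ ω : ℂ, (Finset.univ.filter fun a => β a = ω).card + (if ω = y then 1 else 0) =
      (Finset.univ.filter fun b => α b = ω).card + (if ω = x then 1 else 0))
    (τ : Equiv.Perm (Fin m)) (A : Finset (Fin m)) (hA : ∀ a, a ∉ A → α (τ a) = β a) (ω : ℂ) :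
    (A.filter fun a => β a = ω).card + (if ω = y then 1 else 0) =
      (A.filter fun a => α (τ a) = ω).card + (if ω = x then 1 else 0) := by
  have h1 := hbal ω
  have h2 : (Finset.univ.filter fun b => α b = ω).card =
      (Finset.univ.filter fun a => α (τ a) = ω).card := by
    rw [Finset.card_filter, Finset.card_filter]
    exact (Equiv.sum_comp τ fun b => if α b = ω then 1 else 0).symm
  rw [h2] at h1
  rw [Finset.card_filter, Finset.card_filter] at h1 ⊢
  have h3 := Finset.sum_add_sum_compl A fun a => if β a = ω then 1 else 0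
  have h4 := Finset.sum_add_sum_compl A fun a => if α (τ a) = ω then 1 else 0
  have h5 : (∑ a ∈ Aᶜ, if α (τ a) = ω then 1 else 0) = ∑ a ∈ Aᶜ, if β a = ω then 1 else 0 :=
    Finset.sum_congr rfl fun a ha => by rw [hA a (Finset.mem_compl.1 ha)]
  omega

theorem chu {j k m : ℕ} (h : j ≤ k) {t : Fin (2 * k + 1) → ℂ} (ht : Dst (Sj j k) t) {c : ℂ}
    {L : Matrix (Fin m) (Fin m) ℂ}
    {M : Matrix (Fin (2 * k + 1)) (Fin (2 * k + 1)) ℂ →ₗ[ℂ] Matrix (Fin m) (Fin m) ℂ}
    {β α : Fin m → ℂ} (hG : Zc t m c L M β α) {x y : ℂ} (hx : x ≠ 0)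
    (hy : y = (∏ i, t i) ^ 2 * x)
    (hbal : ∀ ω : ℂ, (Finset.univ.filter fun a => β a = ω).card + (if ω = y then 1 else 0) =
      (Finset.univ.filter fun b => α b = ω).card + (if ω = x then 1 else 0))
    (π : Equiv.Perm (Fin j)) {z : ℕ} (h1 : 1 ≤ z) (h2 : z ≤ j) :
    ∃ (a : Fin m) (f : Fin j → ℕ) (ε : ℕ), (∀ i, f i ≤ 2) ∧ ε ≤ 1 ∧
      (Finset.univ.filter fun i => f i = 0).card = z ∧ β a = x * wtp h t π f ε := by
  classical
  obtain ⟨C₀, hC₀, hmv⟩ := mv (xt h π)
  obtain ⟨τ, χ, hn, hs, hcard⟩ := trm L (fun e => M (mvE (xt h π) e))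
    (mul_ne_zero hG.c0 hC₀) mvd (by
      intro v hv
      have e1 : ∑ e, v e • M (mvE (xt h π) e) = M (∑ e, v e • mvE (xt h π) e) := by
        rw [map_sum]
        exact Finset.sum_congr rfl fun e _ => (map_smul M _ _).symm
      rw [e1, hG.det, hmv v hv, mul_assoc])
  have hall : ∀ a, α (τ a) = Ch_g h t π (χ a) * β a := by
    intro a
    rcases hχ : χ a with _ | i | u
    · rw [hG.gL _ _ (hn a hχ)]
      show β a = 1 * β a
      rw [one_mul]
    · have h3 : M (Matrix.single (lf i) (rt (xt h π i)) 1 -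
          Matrix.single (rt (xt h π i)) (lf i) 1) (τ a) a ≠ 0 := hs a _ hχ
      rw [map_sub, Matrix.sub_apply] at h3
      show α (τ a) = t (lf i) * t (rt (xt h π i)) * β a
      by_cases h4 : M (Matrix.single (lf i) (rt (xt h π i)) 1) (τ a) a = 0
      · have h5 : M (Matrix.single (rt (xt h π i)) (lf i) 1) (τ a) a ≠ 0 := by
          intro h5
          exact h3 (by rw [h4, h5, sub_zero])
        rw [hG.gE _ _ _ _ h5]
        ring
      · exact hG.gE _ _ _ _ h4
    · have h3 : M (Matrix.single (ls k) (ls k) 1) (τ a) a ≠ 0 := hs a _ hχ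
      show α (τ a) = t (ls k) ^ 2 * β a
      rw [hG.gE _ _ _ _ h3]
      ring
  have hF : ∀ U i, Ch_f h χ U i ≤ 2 := by
    intro U i
    have h3 : (Finset.univ.filter fun a => χ a = some (Sum.inl (cl h i))).card = 2 :=
      hcard (Sum.inl (cl h i))
    rw [← h3]
    exact Finset.card_le_card (Finset.filter_subset_filter _ (Finset.subset_univ U))
  have hE : ∀ U, Ch_e χ U ≤ 1 := by
    intro U
    have h3 : (Finset.univ.filter fun a => χ a = some (Sum.inr ())).card = 1 :=
      hcard (Sum.inr ())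
    rw [← h3]
    exact Finset.card_le_card (Finset.filter_subset_filter _ (Finset.subset_univ U))
  obtain ⟨U, -, a, -, -, hQ1, hQ2, hβ⟩ := tru (A := Finset.univ) (β := β)
    (α := fun a => α (τ a)) (g := fun a => Ch_g h t π (χ a)) (x := x) (y := y)
    (fun a _ => hall a) (Ch_bal hbal τ Finset.univ fun a ha => absurd (Finset.mem_univ a) ha)
    (fun U => z ≤ (Finset.univ.filter fun i => Ch_f h χ U i = 0).card) (by
      have h3 : (Finset.univ.filter fun i => Ch_f h χ ∅ i = 0) = Finset.univ := by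
        refine Finset.filter_true_of_mem fun i _ => ?_
        unfold Ch_f
        rw [Finset.filter_empty, Finset.card_empty]
      show z ≤ (Finset.univ.filter fun i => Ch_f h χ ∅ i = 0).card
      rw [h3, Finset.card_univ, Fintype.card_fin]
      exact h2) (by
      intro U _ hU he
      have h3 : wtp h t π (fun _ => 2) 1 = wtp h t π (Ch_f h χ U) (Ch_e χ U) := by
        rw [wt_two h ht π, ← Ch_prod h ht π χ U]
        have h4 := hy.symm.trans he
        rw [mul_comm x] at h4
        exact mul_right_cancel₀ hx h4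
      have h4 := (wt_inj h ht (fun _ => le_refl 2) (hF U) (le_refl 1) (hE U) h3).1
      have h5 : (Finset.univ.filter fun i => Ch_f h χ U i = 0) = ∅ := by
        refine Finset.filter_false_of_mem fun i _ => ?_
        have h6 := congrFun h4 i
        rw [← h6]
        exact two_ne_zero
      have h6 : z ≤ (Finset.univ.filter fun i => Ch_f h χ U i = 0).card := hU
      rw [h5, Finset.card_empty] at h6
      omega)
  refine ⟨a, Ch_f h χ U, Ch_e χ U, hF U, hE U, ?_, ?_⟩
  · have h3 := Ch_ins h χ U a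
    have h4 : z ≤ (Finset.univ.filter fun i => Ch_f h χ U i = 0).card := hQ1
    have h5 : ¬ z ≤ (Finset.univ.filter fun i => Ch_f h χ (insert a U) i = 0).card := hQ2
    omega
  · rw [hβ, Ch_prod h ht π χ U]

end PadDet.Eq
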