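import Pool.Agent.H.MP_d7db32_ag.Eq.T.CcnA

/-!
# MP_d7db32_ag, Eq/U/Cn: counting

`j ! = ∑ a, card {π | Φ π = a}`. If the fibre of `a` is not empty fix `π₀` in it, `Z = {i | f π₀ i = 0}`, `card Z = z`, `Z' = π₀ Z`; for `π` in the fibre `π i ∈ Z' ↔ f π₀ (π₀.symm (π i)) = 0 ↔ f π (π.symm (π i)) = 0 ↔ f π i = 0 ↔ f π₀ i = 0 ↔ i ∈ Z`
(`h1`), so the fibre has at most `z ! * (j - z)!` elements (`ccn_prm_le`), that is `choose j z * card (fibre) ≤ j !` (`Nat.choose_mul_factorial_mul_factorial`). Sum over `a`: `choose j z * j ! ≤ m * j !`.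
-/

set_option autoImplicit false

namespace PadDet.Eq

private theorem Cn_fib {j m z : ℕ} (hz : z ≤ j) (Φ : Equiv.Perm (Fin j) → Fin m)
    (f : Equiv.Perm (Fin j) → Fin j → ℕ)
    (h1 : ∀ π π', Φ π = Φ π' → f π = f π' ∧ ∀ v, f π (π.symm v) = f π' (π'.symm v))
    (h2 : ∀ π, (Finset.univ.filter fun i => f π i = 0).card = z) (a : Fin m) :
    Nat.choose j z * (Finset.univ.filter fun π => Φ π = a).card ≤ j.factorial := by
  classical
  rcases (Finset.univ.filter fun π => Φ π = a).eq_empty_or_nonempty with h | ⟨π₀, h0⟩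
  · rw [h, Finset.card_empty, mul_zero]
    exact Nat.zero_le _
  have h0' : Φ π₀ = a := (Finset.mem_filter.1 h0).2
  have hle : (Finset.univ.filter fun π => Φ π = a).card ≤ z.factorial * (j - z).factorial := by
    have h3 := ccn_prm_le (Finset.univ.filter fun i => f π₀ i = 0)
      ((Finset.univ.filter fun i => f π₀ i = 0).image π₀)
    rw [h2 π₀] at h3
    refine le_trans (Finset.card_le_card ?_) h3
    intro π hπ
    have hπ' : Φ π = a := (Finset.mem_filter.1 hπ).2
    obtain ⟨e1, e2⟩ := h1 π π₀ (hπ'.trans h0'.symm)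
    rw [Finset.mem_filter]
    refine ⟨Finset.mem_univ _, fun i => ?_⟩
    have e3 := e2 (π i)
    rw [Equiv.symm_apply_apply, e1] at e3
    constructor
    · intro h
      obtain ⟨l, hl, hl'⟩ := Finset.mem_image.1 h
      have e4 : π₀.symm (π i) = l := by rw [← hl', Equiv.symm_apply_apply]
      rw [e4] at e3
      rw [Finset.mem_filter] at hl ⊢
      exact ⟨Finset.mem_univ _, e3.trans hl.2⟩
    · intro h
      rw [Finset.mem_filter] at h
      refine Finset.mem_image.2 ⟨π₀.symm (π i), ?_, Equiv.apply_symm_apply _ _⟩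
      rw [Finset.mem_filter]
      exact ⟨Finset.mem_univ _, e3.symm.trans h.2⟩
  calc Nat.choose j z * (Finset.univ.filter fun π => Φ π = a).card
      ≤ Nat.choose j z * (z.factorial * (j - z).factorial) := Nat.mul_le_mul_left _ hle
    _ = j.factorial := by rw [← mul_assoc, Nat.choose_mul_factorial_mul_factorial hz]

theorem cnu {j m z : ℕ} (hz : z ≤ j) (Φ : Equiv.Perm (Fin j) → Fin m)
    (f : Equiv.Perm (Fin j) → Fin j → ℕ)
    (h1 : ∀ π π', Φ π = Φ π' → f π = f π' ∧ ∀ v, f π (π.symm v) = f π' (π'.symm v))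
    (h2 : ∀ π, (Finset.univ.filter fun i => f π i = 0).card = z) : Nat.choose j z ≤ m := by
  classical
  have e1 : j.factorial = ∑ a : Fin m, (Finset.univ.filter fun π => Φ π = a).card := by
    rw [← Finset.card_eq_sum_card_fiberwise (f := Φ) (s := Finset.univ) (t := Finset.univ)
      (fun _ _ => Finset.mem_coe.2 (Finset.mem_univ _)), Finset.card_univ, Fintype.card_perm,
      Fintype.card_fin]
  have e2 : Nat.choose j z * j.factorial ≤ m * j.factorial := by
    conv_lhs => rw [e1]
    rw [Finset.mul_sum]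
    refine (Finset.sum_le_sum fun a _ => Cn_fib hz Φ f h1 h2 a).trans ?_
    rw [Finset.sum_const, Finset.card_univ, Fintype.card_fin, smul_eq_mul]
  exact Nat.le_of_mul_le_mul_right e2 (Nat.factorial_pos j)

end PadDet.Eq
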