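import Pool.Agent.H.MP_d7db32_ag.Eq.U.Bs

/-!
# MP_d7db32_ag, Eq/U/Rl: relabeling

`card_Sj`: three disjoint intervals. `rlb`: `Finset.card_le_univ` gives `j ≤ k`, two subsets of the same size of a finite type are exchanged by a permutation (`Finset.exists_equiv...`, `Equiv.extendSubtype`, `Fintype.card_eq`, or `Equiv.subtypeCongr`-like
constructions, see `Equiv.Perm.extendDomain`; with `Equiv.sumCompl` and cardinalities of the complements). `dst_rlb`: change of variables in the product (`Equiv.prod_comp`), exponents `w ∘ e.symm`.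
-/

set_option autoImplicit false

namespace PadDet.Eq

theorem card_Sj {j k : ℕ} (h : j ≤ k) : (Sj j k).card = 2 * j + 1 := by
  have h1 : (Sj j k).map Fin.valEmbedding =
      (Finset.range j ∪ Finset.Ico k (k + j)) ∪ {2 * k} := by
    ext x
    rw [Finset.mem_map, Finset.mem_union, Finset.mem_union, Finset.mem_range, Finset.mem_Ico,
      Finset.mem_singleton]
    constructor
    · rintro ⟨v, hv, rfl⟩
      have h2 := (Finset.mem_filter.1 hv).2
      rcases h2 with h2 | h2 | h2
      · exact Or.inl (Or.inl h2)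
      · exact Or.inl (Or.inr h2)
      · exact Or.inr h2
    · intro hx
      have hx1 : x < 2 * k + 1 := by omega
      refine ⟨⟨x, hx1⟩, Finset.mem_filter.2 ⟨Finset.mem_univ _, ?_⟩, rfl⟩
      rcases hx with (h2 | h2) | h2
      · exact Or.inl h2
      · exact Or.inr (Or.inl h2)
      · exact Or.inr (Or.inr h2)
  rw [← Finset.card_map Fin.valEmbedding, h1, Finset.card_union_of_disjoint,
    Finset.card_union_of_disjoint, Finset.card_range, Nat.card_Ico, Finset.card_singleton]
  · omega
  · rw [Finset.disjoint_left]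
    intro x hx hx'
    rw [Finset.mem_range] at hx
    rw [Finset.mem_Ico] at hx'
    omega
  · rw [Finset.disjoint_left]
    intro x hx hx'
    rw [Finset.mem_union, Finset.mem_range, Finset.mem_Ico] at hx
    rw [Finset.mem_singleton] at hx'
    omega

theorem rlb {j k : ℕ} {S : Finset (Fin (2 * k + 1))} (hS : S.card = 2 * j + 1) :
    ∃ e : Equiv.Perm (Fin (2 * k + 1)), ∀ i, i ∈ Sj j k ↔ e i ∈ S := by
  have h1 := Finset.card_le_univ S
  rw [Fintype.card_fin, hS] at h1
  have h2 : (Sj j k).card = S.card := by rw [card_Sj (by omega), hS]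
  let e0 : {x // x ∈ Sj j k} ≃ {x // x ∈ S} := Finset.equivOfCardEq h2
  refine ⟨e0.extendSubtype, fun i => ⟨fun hi => e0.extendSubtype_mem i hi, fun hi => ?_⟩⟩
  by_contra hcon
  exact e0.extendSubtype_not_mem i hcon hi

theorem dst_rlb {n : ℕ} {S S' : Finset (Fin n)} {t : Fin n → ℂ} (ht : Dst S t)
    {e : Equiv.Perm (Fin n)} (he : ∀ i, i ∈ S' ↔ e i ∈ S) : Dst S' fun i => t (e i) := by
  refine ⟨fun i => ht.ne (e i), fun i hi => ht.one (e i) fun h => hi ((he i).2 h), ?_⟩
  intro w hw hw2 hprod
  have h1 : (fun i => w (e.symm i)) = 0 := by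
    refine ht.ind _ (fun i hi => hw _ fun h => hi ?_) (fun i => hw2 _) ?_
    · have h2 := (he _).1 h
      rwa [Equiv.apply_symm_apply] at h2
    · rw [← hprod, ← Equiv.prod_comp e]
      exact Finset.prod_congr rfl fun i _ => by rw [Equiv.symm_apply_apply]
  funext i
  have h2 := congrFun h1 (e i)
  simp only [Equiv.symm_apply_apply] at h2
  exact h2

end PadDet.Eq
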