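import Pool.Agent.H.MP_d7db32_ag.Eq.U.Bl
import Pool.Agent.H.MP_d7db32_ag.Eq.U.Ch
import Pool.Agent.H.MP_d7db32_ag.Eq.U.Cn
import Pool.Agent.H.MP_d7db32_ag.Eq.U.Rl
import Pool.Agent.H.MP_d7db32_ag.Eq.R.Reg
import Pool.Agent.H.MP_d7db32_ag.Eq.F.Sqr
import Pool.Agent.H.MP_d7db32_ag.Eq.Low

/-!
# MP_d7db32_ag, Eq/U/As: an exponential bound from one symmetry
-/

set_option autoImplicit false

namespace PadDet.Eq

open Matrix

private noncomputable def As_prm {n : ℕ} (σ : Equiv.Perm (Fin n)) :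
    Matrix (Fin n) (Fin n) ℂ →ₗ[ℂ] Matrix (Fin n) (Fin n) ℂ where
  toFun := prm σ
  map_add' _ _ := rfl
  map_smul' _ _ := rfl

private theorem As_tor {n : ℕ} (t : Fin n → ℂ) (e : Equiv.Perm (Fin n))
    (X : Matrix (Fin n) (Fin n) ℂ) :
    prm e.symm (tor (fun i => t (e i)) X) = tor t (prm e.symm X) := by
  ext i j
  unfold prm tor
  simp only [Matrix.submatrix_apply, Matrix.of_apply, Equiv.apply_symm_apply]

/-- The weights of the columns when the symmetry is relabeled. -/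
private theorem As_core {j k m : ℕ} (hjk : j ≤ k) {c : ℂ} (hc : c ≠ 0)
    (L : Matrix (Fin m) (Fin m) ℂ)
    (M : Matrix (Fin (2 * k + 1)) (Fin (2 * k + 1)) ℂ →ₗ[ℂ] Matrix (Fin m) (Fin m) ℂ)
    (hdet : ∀ X, (L + M X).det = c * Fv X) {t : Fin (2 * k + 1) → ℂ} (ht : Dst (Sj j k) t)
    (hT : Eqv L M (tor t)) : Nat.choose j (j / 2) ≤ m := by
  obtain ⟨c', L', M', β, α, hG⟩ := exists_zc hc hdet hT
  have hadj := reg hG.c0 L' M' hG.det
  have h2 : (∏ i, t i) ^ 2 ≠ 1 := by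
    intro h
    have h1 := wt_two hjk ht 1
    rw [h] at h1
    have h3 : wtp hjk t 1 (fun _ => 0) 0 = 1 := by
      unfold wtp
      simp
    have h4 := (wt_inj hjk ht (fun _ => le_rfl) (fun _ => by omega) le_rfl (by omega)
      (h1.trans h3.symm)).2.2
    omega
  obtain ⟨x, y, hx, hy, hbal⟩ := blu hG (exists_ne k) ht.ne h2 hadj
  rcases Nat.eq_zero_or_pos j with rfl | hj
  · have hr := rank_of_adj hadj (by
      have h3 := hG.det 0
      have h4 : Fv (0 : Matrix (Fin (2 * k + 1)) (Fin (2 * k + 1)) ℂ) = 0 := by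
        unfold Fv
        rw [Matrix.transpose_zero, add_zero, mul_zero, Matrix.trace_zero]
      rwa [map_zero, add_zero, h4, mul_zero] at h3)
    simp only [Nat.choose_zero_right, Nat.zero_div]
    omega
  · obtain ⟨z, hz⟩ : ∃ z, z = j - j / 2 := ⟨_, rfl⟩
    have hz1 : 1 ≤ z := by omega
    have hz2 : z ≤ j := by omega
    choose Φ f ε hf hε hcard hβ using fun π : Equiv.Perm (Fin j) =>
      chu hjk ht hG hx hy hbal π hz1 hz2
    have h5 := cnu hz2 Φ f (fun π π' hΦ => by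
      have h6 := hβ π
      rw [hΦ, hβ π'] at h6
      have h7 := wt_inj hjk ht (hf π') (hf π) (hε π') (hε π) (mul_left_cancel₀ hx h6)
      exact ⟨h7.1.symm, fun v => (h7.2.1 v).symm⟩) hcard
    rwa [hz, Nat.choose_symm (Nat.div_le_self j 2)] at h5

theorem low_one (k m : ℕ) {c : ℂ} (hc : c ≠ 0) (L : Matrix (Fin m) (Fin m) ℂ)
    (M : Matrix (Fin (2 * k + 1)) (Fin (2 * k + 1)) ℂ →ₗ[ℂ] Matrix (Fin m) (Fin m) ℂ)
    (hdet : ∀ X, (L + M X).det = c * Fv X) {j : ℕ} {S : Finset (Fin (2 * k + 1))}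
    (hS : S.card = 2 * j + 1) {t : Fin (2 * k + 1) → ℂ} (ht : Dst S fun i => t i ^ 2)
    (hT : Eqt L M (tor t)) : Nat.choose j (j / 2) ≤ m := by
  have hjk : j ≤ k := by
    have h1 := Finset.card_le_univ S
    rw [Fintype.card_fin] at h1
    omega
  obtain ⟨e, he⟩ := rlb hS
  have ht' := dst_rlb ht he
  have hT2 := eqt_sq hT
  have e1 : (fun X : Matrix (Fin (2 * k + 1)) (Fin (2 * k + 1)) ℂ => tor t (tor t X)) =
      tor fun i => t i ^ 2 := by
    funext X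
    ext i j
    unfold tor
    simp only [Matrix.of_apply]
    ring
  rw [e1] at hT2
  refine As_core hjk hc L (M ∘ₗ As_prm e.symm) (fun X => ?_) ht' ?_
  · have h1 : (M ∘ₗ As_prm e.symm) X = M (prm e.symm X) := rfl
    rw [h1, hdet, Fv_prm]
  · obtain ⟨A, B, hA, hB, hAB⟩ := hT2
    refine ⟨A, B, hA, hB, fun X => ?_⟩
    have h1 : ∀ X, (M ∘ₗ As_prm e.symm) X = M (prm e.symm X) := fun X => rfl
    rw [h1, h1, As_tor (fun i => t i ^ 2) e X]
    exact hAB (prm e.symm X)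

end PadDet.Eq
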