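import Pool.Agent.H.MP_d7db32_ag.Eq.U.Bs
import Pool.Agent.H.MP_d7db32_ag.Eq.T.Ker
import Pool.Agent.H.MP_d7db32_ag.Eq.F.Pwg

/-!
# MP_d7db32_ag, Eq/U/Bl: the numbers of columns and rows of a given weight

Adapt T/Wsm and T/Bal (weights in `ℂ` instead of `ℤ ^ n`). (1) `∏ b, α b = (∏ i, t i) ^ 2 * ∏ a, β a`: `diagonal α * (L + M X) = (L + M (tor t X)) * diagonal β` (`mor_tor`, `gL`, `gE`), determinants, `Fv (tor t X) = (∏ t) ^ 2 * Fv X` (`Fv_tor`), `Fv X ≠ 0`.
(2) `det L = c * Fv 0 = 0`; `ker_ine`, `ker_ine'` (with `W = ℂ`, `w = β`, `w' = α`, `hG.gL`) give `x`, `y` with `#cols ω ≤ #rows ω + [ω = x]` and `#rows ω ≤ #cols ω + [ω = y]`. The sum of `#cols` and of `#rows` over all weights is `m`.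
If `x = y`, or if `x ≠ y` and `#cols x = #rows x`, then `#cols ω = #rows ω` for all `ω`, so `∏ a, β a = ∏ b, α b` (`Finset.prod_comp` or `Finset.prod_fiberwise`: `∏ a, β a = ∏ ω ∈ T, ω ^ #cols ω`), which is not `0`, against (1) and `h2`.
Otherwise `#cols x = #rows x + 1`, `#rows y = #cols y + 1` and the numbers agree for the other weights, so `(∏ b, α b) * x = (∏ a, β a) * y`, with (1) `y = (∏ t) ^ 2 * x`; `x` is one of the `β a`, so it is not `0`.
-/

set_option autoImplicit false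

namespace PadDet.Eq

open Matrix

/-- the number of members of a family by fibres -/
private theorem Bl_cnt {m : ℕ} (w : Fin m → ℂ) (S : Finset ℂ) (hS : ∀ a, w a ∈ S) :
    ∑ ω ∈ S, (Finset.univ.filter fun a => w a = ω).card = m := by
  have h := Finset.card_eq_sum_card_fiberwise (s := (Finset.univ : Finset (Fin m))) (f := w)
    (t := S) (fun a _ => hS a)
  rw [Finset.card_univ, Fintype.card_fin] at h
  exact h.symm

/-- the product of a family by fibres -/
private theorem Bl_prod {m : ℕ} (w : Fin m → ℂ) (S : Finset ℂ) (hS : ∀ a, w a ∈ S) :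
    ∏ ω ∈ S, ω ^ (Finset.univ.filter fun a => w a = ω).card = ∏ a, w a := by
  rw [← Finset.prod_fiberwise_of_maps_to (s := (Finset.univ : Finset (Fin m))) (g := w)
    (t := S) (fun a _ => hS a)]
  refine Finset.prod_congr rfl fun ω _ => ?_
  rw [Finset.prod_congr rfl (fun a ha => by rw [(Finset.mem_filter.1 ha).2]),
    Finset.prod_const]

/-- the arithmetic -/
private theorem Bl_ar (C R : ℂ → ℕ) (S : Finset ℂ) {x y : ℂ} (hx : x ∈ S) (hy : y ∈ S)
    (h1 : ∀ ω, C ω ≤ R ω + (if ω = x then 1 else 0))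
    (h2 : ∀ ω, R ω ≤ C ω + (if ω = y then 1 else 0))
    (h3 : ∑ ω ∈ S, C ω = ∑ ω ∈ S, R ω) :
    (∀ ω, C ω = R ω) ∨ (C x = R x + 1 ∧ ∀ ω, C ω + (if ω = y then 1 else 0) =
      R ω + (if ω = x then 1 else 0)) := by
  have e3 : ∑ ω ∈ S, ((R ω : ℤ) - (C ω : ℤ)) = 0 := by
    rw [Finset.sum_sub_distrib, ← Nat.cast_sum, ← Nat.cast_sum, h3, sub_self]
  by_cases hxy : x = y
  · left
    subst hxy
    have h5 : ∀ ω, ω ≠ x → (R ω : ℤ) - (C ω : ℤ) = 0 := by
      intro ω hω
      have a1 := h1 ω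
      have a2 := h2 ω
      rw [if_neg hω] at a1 a2
      omega
    have h6 : (R x : ℤ) - (C x : ℤ) = 0 := by
      rw [← e3]
      exact (Finset.sum_eq_single_of_mem x hx fun ω _ hω => h5 ω hω).symm
    intro ω
    by_cases h : ω = x
    · rw [h]
      omega
    · have := h5 ω h
      omega
  · have h5 : ∀ ω, ω ≠ x → ω ≠ y → (R ω : ℤ) - (C ω : ℤ) = 0 := by
      intro ω ha hb
      have a1 := h1 ω
      have a2 := h2 ω
      rw [if_neg ha] at a1
      rw [if_neg hb] at a2
      omega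
    have e5 : ((R x : ℤ) - (C x : ℤ)) + ((R y : ℤ) - (C y : ℤ)) = 0 := by
      rw [← e3, ← Finset.sum_pair hxy (f := fun ω => (R ω : ℤ) - (C ω : ℤ))]
      apply Finset.sum_subset
      · intro ω hω
        rw [Finset.mem_insert, Finset.mem_singleton] at hω
        rcases hω with rfl | rfl
        · exact hx
        · exact hy
      · intro ω _ hω
        rw [Finset.mem_insert, Finset.mem_singleton, not_or] at hω
        exact h5 ω hω.1 hω.2
    have a1 := h1 x
    have a2 := h2 x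
    rw [if_pos rfl] at a1
    rw [if_neg hxy] at a2
    have hd : R x = C x ∨ C x = R x + 1 := by omega
    rcases hd with hd | hd
    · left
      intro ω
      by_cases ha : ω = x
      · rw [ha]
        exact hd.symm
      · by_cases hb : ω = y
        · rw [hb]
          omega
        · have := h5 ω ha hb
          omega
    · right
      refine ⟨hd, fun ω => ?_⟩
      by_cases ha : ω = x
      · rw [ha, if_neg hxy, if_pos rfl]
        omega
      · by_cases hb : ω = y
        · rw [hb, if_pos rfl, if_neg (fun h => hxy h.symm)]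
          omega
        · rw [if_neg ha, if_neg hb]
          have := h5 ω ha hb
          omega

private theorem Bl_ite (S : Finset ℂ) {x : ℂ} (hx : x ∈ S) :
    ∏ ω ∈ S, ω ^ (if ω = x then 1 else 0 : ℕ) = x := by
  rw [Finset.prod_eq_single_of_mem x hx]
  · rw [if_pos rfl, pow_one]
  · intro ω _ hω
    rw [if_neg hω, pow_zero]

private theorem Bl_Fv_zero {n : ℕ} : Fv (0 : Matrix (Fin n) (Fin n) ℂ) = 0 := by
  unfold Fv
  rw [Matrix.transpose_zero, add_zero, mul_zero, Matrix.trace_zero]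

/-- the products of the weights -/
private theorem Bl_det {k m : ℕ} {t : Fin (2 * k + 1) → ℂ} {c : ℂ}
    {L : Matrix (Fin m) (Fin m) ℂ}
    {M : Matrix (Fin (2 * k + 1)) (Fin (2 * k + 1)) ℂ →ₗ[ℂ] Matrix (Fin m) (Fin m) ℂ}
    {β α : Fin m → ℂ} (hG : Zc t m c L M β α)
    (hex : ∃ X : Matrix (Fin (2 * k + 1)) (Fin (2 * k + 1)) ℂ, Fv X ≠ 0) (ht : ∀ i, t i ≠ 0) :
    ∏ b, α b = (∏ i, t i) ^ 2 * ∏ a, β a := by
  obtain ⟨X, hX⟩ := hex
  have hmor : Mor L M (tor t) (Matrix.diagonal α) (Matrix.diagonal β) := by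
    rw [mor_tor]
    constructor
    · ext b a
      rw [Matrix.diagonal_mul, Matrix.mul_diagonal]
      by_cases h : L b a = 0
      · rw [h, mul_zero, zero_mul]
      · rw [hG.gL b a h, mul_comm]
    · intro i j
      ext b a
      rw [Matrix.diagonal_mul, Matrix.smul_apply, Matrix.mul_diagonal, smul_eq_mul]
      by_cases h : M (Matrix.single i j 1) b a = 0
      · rw [h, mul_zero, zero_mul, mul_zero]
      · rw [hG.gE b a i j h]
        ring
  have h1 := congrArg Matrix.det (hmor X)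
  rw [Matrix.det_mul, Matrix.det_mul, Matrix.det_diagonal, Matrix.det_diagonal, hG.det, hG.det,
    Fv_tor ht] at h1
  have h2 : c * Fv X ≠ 0 := mul_ne_zero hG.c0 hX
  refine mul_right_cancel₀ h2 ?_
  rw [h1]
  ring

theorem blu {k m : ℕ} {t : Fin (2 * k + 1) → ℂ} {c : ℂ} {L : Matrix (Fin m) (Fin m) ℂ}
    {M : Matrix (Fin (2 * k + 1)) (Fin (2 * k + 1)) ℂ →ₗ[ℂ] Matrix (Fin m) (Fin m) ℂ}
    {β α : Fin m → ℂ} (hG : Zc t m c L M β α)
    (hex : ∃ X : Matrix (Fin (2 * k + 1)) (Fin (2 * k + 1)) ℂ, Fv X ≠ 0) (ht : ∀ i, t i ≠ 0)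
    (h2 : (∏ i, t i) ^ 2 ≠ 1) (hadj : L.adjugate ≠ 0) :
    ∃ x y : ℂ, x ≠ 0 ∧ y = (∏ i, t i) ^ 2 * x ∧ ∀ ω : ℂ,
      (Finset.univ.filter fun a => β a = ω).card + (if ω = y then 1 else 0) =
      (Finset.univ.filter fun b => α b = ω).card + (if ω = x then 1 else 0) := by
  have hprod := Bl_det hG hex ht
  have hβ0 : ∏ a, β a ≠ 0 := Finset.prod_ne_zero_iff.2 fun a _ => hG.nβ a
  have hdet : L.det = 0 := by
    have h := hG.det 0
    rwa [map_zero, add_zero, Bl_Fv_zero, mul_zero] at h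
  obtain ⟨x, hx⟩ := ker_ine hdet hadj hG.gL
  obtain ⟨y, hy⟩ := ker_ine' hdet hadj hG.gL
  obtain ⟨S, hS⟩ : ∃ S : Finset ℂ,
    S = (Finset.univ.image β ∪ Finset.univ.image α) ∪ {x, y} := ⟨_, rfl⟩
  have hw : ∀ a, β a ∈ S := fun a => by
    rw [hS]
    exact Finset.mem_union_left _ (Finset.mem_union_left _
      (Finset.mem_image_of_mem _ (Finset.mem_univ _)))
  have hw' : ∀ a, α a ∈ S := fun a => by
    rw [hS]
    exact Finset.mem_union_left _ (Finset.mem_union_right _
      (Finset.mem_image_of_mem _ (Finset.mem_univ _)))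
  have hxS : x ∈ S := by
    rw [hS]
    exact Finset.mem_union_right _ (by simp)
  have hyS : y ∈ S := by
    rw [hS]
    exact Finset.mem_union_right _ (by simp)
  rcases Bl_ar (fun ω => (Finset.univ.filter fun a => β a = ω).card)
    (fun ω => (Finset.univ.filter fun b => α b = ω).card) S hxS hyS hx hy
    ((Bl_cnt β S hw).trans (Bl_cnt α S hw').symm) with he | ⟨h1, he⟩
  · exfalso
    apply h2
    have e1 : ∏ a, β a = ∏ b, α b := by
      rw [← Bl_prod β S hw, ← Bl_prod α S hw']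
      exact Finset.prod_congr rfl fun ω _ => congrArg (fun n => ω ^ n) (he ω)
    have e2 : (∏ i, t i) ^ 2 * ∏ a, β a = 1 * ∏ a, β a := by
      rw [one_mul, ← hprod, e1]
    exact mul_right_cancel₀ hβ0 e2
  · have h1' : (Finset.univ.filter fun a => β a = x).card ≠ 0 := by
      have h1'' : (Finset.univ.filter fun a => β a = x).card =
        (Finset.univ.filter fun b => α b = x).card + 1 := h1
      omega
    obtain ⟨a, ha⟩ := Finset.card_ne_zero.1 h1'
    have hax : β a = x := (Finset.mem_filter.1 ha).2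
    refine ⟨x, y, ?_, ?_, he⟩
    · rw [← hax]
      exact hG.nβ a
    · have e1 : (∏ a, β a) * y = (∏ b, α b) * x := by
        have e2 : ∏ ω ∈ S, ω ^ ((Finset.univ.filter fun a => β a = ω).card +
            (if ω = y then 1 else 0)) = ∏ ω ∈ S, ω ^ ((Finset.univ.filter fun b => α b = ω).card +
            (if ω = x then 1 else 0)) :=
          Finset.prod_congr rfl fun ω _ => congrArg (fun n => ω ^ n) (he ω)
        simp only [pow_add] at e2
        rw [Finset.prod_mul_distrib, Finset.prod_mul_distrib, Bl_prod β S hw, Bl_prod α S hw',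
          Bl_ite S hyS, Bl_ite S hxS] at e2
        exact e2
      rw [hprod] at e1
      refine mul_left_cancel₀ hβ0 ?_
      rw [e1]
      ring

end PadDet.Eq
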