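import Pool.Agent.H.MP_d7db32_ag.Eq.L.Lab
import Pool.Agent.H.MP_d7db32_ag.Eq.L.Bch
import Pool.Agent.H.MP_d7db32_ag.Eq.T.Mch

/-!
# MP_d7db32_ag, Eq/U/Bs: one symmetry of the form, weights in the group of nonzero numbers

`Dst S t`: the products `∏ i, t i ^ w i` with `0 ≤ w i ≤ 2`, `w i = 0` for `i ∉ S`, are distinct, `t i = 1` for `i ∉ S`.
`Zc`: a pencil with weights `β` of the columns and `α` of the rows. `Sj`: the first `j` pairs of vertices and the last vertex.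
`xt`: extension of a permutation of the first `j` pairs by the identity.
-/

set_option autoImplicit false

namespace PadDet.Eq

open Matrix

variable {n m : ℕ}

/-- The entries of `t` outside `S` are `1`; products with exponents `0, 1, 2` are distinct. -/
structure Dst (S : Finset (Fin n)) (t : Fin n → ℂ) : Prop where
  ne : ∀ i, t i ≠ 0
  one : ∀ i, i ∉ S → t i = 1
  ind : ∀ w : Fin n → ℤ, (∀ i, i ∉ S → w i = 0) → (∀ i, |w i| ≤ 2) → ∏ i, t i ^ w i = 1 → w = 0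

/-- Weights of the columns and the rows. -/
structure Zc (t : Fin n → ℂ) (m : ℕ) (c : ℂ) (L : Matrix (Fin m) (Fin m) ℂ)
    (M : Matrix (Fin n) (Fin n) ℂ →ₗ[ℂ] Matrix (Fin m) (Fin m) ℂ)
    (β α : Fin m → ℂ) : Prop where
  c0 : c ≠ 0
  det : ∀ X, (L + M X).det = c * Fv X
  gL : ∀ b a, L b a ≠ 0 → α b = β a
  gE : ∀ b a i j, M (Matrix.single i j 1) b a ≠ 0 → α b = t i * t j * β a
  nβ : ∀ a, β a ≠ 0
  nα : ∀ b, α b ≠ 0

/-- The pair `i < j` as an index. -/
def cl {j k : ℕ} (h : j ≤ k) (i : Fin j) : Fin k := Fin.castLE h i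

/-- The first `j` pairs and the last vertex. -/
def Sj (j k : ℕ) : Finset (Fin (2 * k + 1)) :=
  Finset.univ.filter fun v => v.val < j ∨ (k ≤ v.val ∧ v.val < k + j) ∨ v.val = 2 * k

/-- Extension of a permutation of the first `j` pairs by the identity. -/
noncomputable def xt {j k : ℕ} (h : j ≤ k) (π : Equiv.Perm (Fin j)) : Equiv.Perm (Fin k) :=
  π.viaEmbedding (Fin.castLEEmb h)

theorem xt_cl {j k : ℕ} (h : j ≤ k) (π : Equiv.Perm (Fin j)) (i : Fin j) :
    xt h π (cl h i) = cl h (π i) :=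
  Equiv.Perm.viaEmbedding_apply π (Fin.castLEEmb h) i

theorem xt_ge {j k : ℕ} (h : j ≤ k) (π : Equiv.Perm (Fin j)) {i : Fin k} (hi : j ≤ i.val) :
    xt h π i = i := by
  refine Equiv.Perm.viaEmbedding_apply_of_notMem π (Fin.castLEEmb h) i ?_
  rintro ⟨a, ha⟩
  have h1 : a.val = i.val := congrArg Fin.val ha
  have h2 := a.isLt
  omega

theorem cl_inj {j k : ℕ} (h : j ≤ k) {i i' : Fin j} (hi : cl h i = cl h i') : i = i' :=
  Fin.castLE_injective h hi

/-- A pair is one of the first `j` or not. -/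
theorem cl_or {j k : ℕ} (h : j ≤ k) (i : Fin k) : (∃ i', i = cl h i') ∨ j ≤ i.val := by
  rcases lt_or_ge i.val j with h1 | h1
  · exact Or.inl ⟨⟨i.val, h1⟩, rfl⟩
  · exact Or.inr h1

/-- Outside `Sj` the entries are `1`. -/
theorem dst_lf {j k : ℕ} {t : Fin (2 * k + 1) → ℂ} (ht : Dst (Sj j k) t) {i : Fin k}
    (hi : j ≤ i.val) : t (lf i) = 1 := by
  refine ht.one _ ?_
  intro h
  have h1 := (Finset.mem_filter.1 h).2
  have h2 : (lf i : Fin (2 * k + 1)).val = i.val := rfl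
  have h3 := i.isLt
  rw [h2] at h1
  omega

theorem dst_rt {j k : ℕ} {t : Fin (2 * k + 1) → ℂ} (ht : Dst (Sj j k) t) {i : Fin k}
    (hi : j ≤ i.val) : t (rt i) = 1 := by
  refine ht.one _ ?_
  intro h
  have h1 := (Finset.mem_filter.1 h).2
  have h2 : (rt i : Fin (2 * k + 1)).val = k + i.val := rfl
  have h3 := i.isLt
  rw [h2] at h1
  omega

private theorem Bs_ne {D T T' : Matrix (Fin m) (Fin m) ℂ} {α : Fin m → ℂ} (hD : D.det ≠ 0)
    (ED : Eig D T T' α) (b : Fin m) : α b ≠ 0 := by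
  intro h0
  obtain ⟨v, hv, h1⟩ := eig_ev ED b
  rw [h0, zero_smul] at h1
  exact hv (Matrix.eq_zero_of_mulVec_eq_zero hD h1)

/-- The weights are eigenvalues of the lift. -/
theorem exists_zc {k m : ℕ} {c : ℂ} {L : Matrix (Fin m) (Fin m) ℂ}
    {M : Matrix (Fin (2 * k + 1)) (Fin (2 * k + 1)) ℂ →ₗ[ℂ] Matrix (Fin m) (Fin m) ℂ}
    {t : Fin (2 * k + 1) → ℂ} (hc : c ≠ 0) (hdet : ∀ X, (L + M X).det = c * Fv X)
    (hT : Eqv L M (tor t)) :
    ∃ (c' : ℂ) (L' : Matrix (Fin m) (Fin m) ℂ)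
      (M' : Matrix (Fin (2 * k + 1)) (Fin (2 * k + 1)) ℂ →ₗ[ℂ] Matrix (Fin m) (Fin m) ℂ)
      (β α : Fin m → ℂ), Zc t m c' L' M' β α := by
  obtain ⟨D, C, hD, hC, hDC⟩ := hT
  obtain ⟨h0, h1⟩ := mor_tor.1 hDC
  obtain ⟨S, S', β, EC⟩ := exists_eig C
  obtain ⟨T, T', α, ED⟩ := exists_eig D
  refine ⟨T'.det * c * S.det, T' * L * S, lcg T' S M, β, α, ⟨?_, fun X => ?_, ?_, ?_, ?_, ?_⟩⟩
  · refine mul_ne_zero (mul_ne_zero ?_ hc) ?_
    · have h2 := congrArg Matrix.det ED.inv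
      rw [Matrix.det_mul, Matrix.det_one] at h2
      exact left_ne_zero_of_mul_eq_one h2
    · have h2 := congrArg Matrix.det EC.inv'
      rw [Matrix.det_mul, Matrix.det_one] at h2
      exact left_ne_zero_of_mul_eq_one h2
  · have e : T' * L * S + lcg T' S M X = T' * (L + M X) * S := by
      change T' * L * S + T' * M X * S = T' * (L + M X) * S
      rw [Matrix.mul_add, Matrix.add_mul]
    rw [e, Matrix.det_mul, Matrix.det_mul, hdet]
    ring
  · intro b a hba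
    have h2 : α b = 1 * β a := eig_mor (z := 1) (by rw [one_smul]; exact h0) EC ED b a hba
    rwa [one_mul] at h2
  · intro b a i j hba
    exact eig_mor (h1 i j) EC ED b a hba
  · exact Bs_ne hC EC
  · exact Bs_ne hD ED

end PadDet.Eq
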