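import Mathlib

/-!
# MP_d7db32_ag, Eq/U/Tm: a term of the expansion of a determinant with a given monomial

Let `Q = det (C L + ∑ e, X e • C P e)` over `MvPolynomial ι ℂ`. `(Q - C C₀ * ∏ X e ^ d e) * ∏ X e` vanishes at all points (`MvPolynomial.funext`; at the points with some `x e = 0` because of the last factor), so `Q = C C₀ * ∏ X e ^ d e`.
The coefficient of `Q` at the monomial `d` is `C₀ ≠ 0`. `Matrix.det_apply`: `Q = ∑ τ, sign τ • ∏ a, (C (L (τ a) a) + ∑ e, X e * C (P e (τ a) a))`, so for some `τ` the coefficient of the product at `d` is not zero;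
`Finset.prod_univ_sum` (write the factor as the sum over `o : Option ι` of `C (c o a) * y o` with `y none = 1`, `y (some e) = X e`): the product is the sum over `χ : Fin m → Option ι` of `C (∏ a, c (χ a) a) * ∏ a, y (χ a)`,
and `∏ a, y (χ a)` is the monomial with the exponents `card {a | χ a = some e}`; so for some `χ` the coefficient at `d` of this term is not zero.
-/

set_option autoImplicit false

namespace PadDet.Eq

open Matrix

private theorem Tm_prod {ι κ : Type} [DecidableEq κ] (t : Finset κ) (u : κ → ι →₀ ℕ) (v : κ → ℂ) :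
    ∏ a ∈ t, MvPolynomial.monomial (u a) (v a) =
      MvPolynomial.monomial (∑ a ∈ t, u a) (∏ a ∈ t, v a) := by
  induction t using Finset.induction_on with
  | empty =>
    rw [Finset.prod_empty, Finset.sum_empty, Finset.prod_empty]
    rfl
  | insert a t ha ih =>
    rw [Finset.prod_insert ha, Finset.sum_insert ha, Finset.prod_insert ha, ih,
      MvPolynomial.monomial_mul]

theorem trm {ι : Type} [Fintype ι] [DecidableEq ι] {m : ℕ} (L : Matrix (Fin m) (Fin m) ℂ)
    (P : ι → Matrix (Fin m) (Fin m) ℂ) {C₀ : ℂ} (hC : C₀ ≠ 0) (d : ι → ℕ)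
    (h : ∀ x : ι → ℂ, (∀ e, x e ≠ 0) → (L + ∑ e, x e • P e).det = C₀ * ∏ e, x e ^ d e) :
    ∃ (τ : Equiv.Perm (Fin m)) (χ : Fin m → Option ι),
      (∀ a, χ a = none → L (τ a) a ≠ 0) ∧ (∀ a e, χ a = some e → P e (τ a) a ≠ 0) ∧
      ∀ e, (Finset.univ.filter fun a => χ a = some e).card = d e := by
  classical
  obtain ⟨c, hc⟩ : ∃ c : Option ι → Matrix (Fin m) (Fin m) ℂ,
    c = fun o => o.elim L P := ⟨_, rfl⟩
  obtain ⟨s, hs⟩ : ∃ s : Option ι → (ι →₀ ℕ),
    s = fun o => o.elim 0 (fun e => Finsupp.single e 1) := ⟨_, rfl⟩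
  obtain ⟨Q, hQ⟩ : ∃ Q : MvPolynomial ι ℂ, Q = Matrix.det (Matrix.of fun i j =>
    ∑ o : Option ι, MvPolynomial.monomial (s o) (c o i j)) := ⟨_, rfl⟩
  obtain ⟨D, hD⟩ : ∃ D : ι →₀ ℕ, D = Finsupp.equivFunOnFinite.symm d := ⟨_, rfl⟩
  have hev : ∀ x : ι → ℂ, MvPolynomial.eval x Q = (L + ∑ e, x e • P e).det := by
    intro x
    rw [hQ, RingHom.map_det]
    congr 1
    ext i j
    rw [RingHom.mapMatrix_apply, Matrix.map_apply, Matrix.of_apply, map_sum, Fintype.sum_option,
      Matrix.add_apply, Matrix.sum_apply, hs, hc]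
    congr 1
    · show MvPolynomial.eval x (MvPolynomial.monomial 0 (L i j)) = L i j
      rw [MvPolynomial.eval_monomial, Finsupp.prod_zero_index, mul_one]
    · refine Finset.sum_congr rfl fun e _ => ?_
      show MvPolynomial.eval x (MvPolynomial.monomial (Finsupp.single e 1) (P e i j)) = _
      have h12 : (Finsupp.single e 1).prod (fun n k => x n ^ k) = x e := by
        rw [Finsupp.prod_single_index]
        · exact pow_one _
        · exact pow_zero _
      rw [MvPolynomial.eval_monomial, h12, Matrix.smul_apply, smul_eq_mul, mul_comm]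
  have hQ2 : Q = MvPolynomial.monomial D C₀ := by
    have h3 : (Q - MvPolynomial.monomial D C₀) * ∏ e, MvPolynomial.X e = 0 := by
      apply MvPolynomial.funext
      intro x
      rw [map_mul, map_sub, map_zero, map_prod, hev]
      by_cases hx : ∀ e, x e ≠ 0
      · rw [h x hx, MvPolynomial.eval_monomial, Finsupp.prod_fintype _ _ (fun e => pow_zero _)]
        have h4 : ∀ e, D e = d e := fun e => by rw [hD]; rfl
        simp only [h4, sub_self, zero_mul]
      · push Not at hx
        obtain ⟨e, he⟩ := hx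
        rw [Finset.prod_eq_zero (Finset.mem_univ e) (by rw [MvPolynomial.eval_X]; exact he),
          mul_zero]
    rcases mul_eq_zero.1 h3 with h4 | h4
    · exact sub_eq_zero.1 h4
    · exfalso
      obtain ⟨e, _, h5⟩ := Finset.prod_eq_zero_iff.1 h4
      exact MvPolynomial.X_ne_zero e h5
  have hQ3 : Q = ∑ σ : Equiv.Perm (Fin m), ∑ χ : Fin m → Option ι,
      MvPolynomial.monomial (∑ a, s (χ a))
        (((Equiv.Perm.sign σ : ℤ) : ℂ) * ∏ a, c (χ a) (σ a) a) := by
    rw [hQ, Matrix.det_apply']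
    refine Finset.sum_congr rfl fun σ _ => ?_
    simp only [Matrix.of_apply]
    rw [Finset.prod_univ_sum, Fintype.piFinset_univ, Finset.mul_sum]
    refine Finset.sum_congr rfl fun χ _ => ?_
    rw [Tm_prod, ← map_intCast (MvPolynomial.C : ℂ →+* MvPolynomial ι ℂ),
      MvPolynomial.C_mul_monomial]
  have h6 : MvPolynomial.coeff D Q ≠ 0 := by
    rw [hQ2, MvPolynomial.coeff_monomial, if_pos rfl]
    exact hC
  rw [hQ3, MvPolynomial.coeff_sum] at h6
  obtain ⟨σ, _, h7⟩ := Finset.exists_ne_zero_of_sum_ne_zero h6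
  rw [MvPolynomial.coeff_sum] at h7
  obtain ⟨χ, _, h8⟩ := Finset.exists_ne_zero_of_sum_ne_zero h7
  rw [MvPolynomial.coeff_monomial] at h8
  have h9 : ∑ a, s (χ a) = D := by
    by_contra h10
    exact h8 (if_neg h10)
  rw [if_pos h9] at h8
  have h10 : ∀ a, c (χ a) (σ a) a ≠ 0 := fun a =>
    Finset.prod_ne_zero_iff.1 (right_ne_zero_of_mul h8) a (Finset.mem_univ a)
  refine ⟨σ, χ, ?_, ?_, ?_⟩
  · intro a ha
    have h11 := h10 a
    rw [ha, hc] at h11
    exact h11
  · intro a e ha
    have h11 := h10 a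
    rw [ha, hc] at h11
    exact h11
  · intro e
    have h11 : D e = d e := by rw [hD]; rfl
    rw [← h11, ← h9, Finsupp.finsetSum_apply, Finset.card_filter]
    refine Finset.sum_congr rfl fun a _ => ?_
    rw [hs]
    rcases hχ : χ a with _ | f
    · simp
    · by_cases hfe : f = e
      · subst hfe
        simp
      · have : some f ≠ some e := fun h12 => hfe (Option.some.inj h12)
        rw [if_neg this]
        show 0 = (Finsupp.single f 1) e
        rw [Finsupp.single_eq_of_ne (Ne.symm hfe)]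

end PadDet.Eq
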